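import Mathlib
import Pool.Agent.Q256.VG.Main

set_option autoImplicit false

/-!
Pairs of integers `g (x, y)` for which the linear forms `x b_l - y a_l` have small radicals.
-/

namespace Pool.Agent.Q256.VM

open Finset
open Pool.Agent.Q256.VT Pool.Agent.Q256.VG
open Pool.Agent.H813R3.Voj (rho rho_pos)

/-- the value of the linear form with the zero `a` at `x` -/
def lin (a x : Fin 2 → ℤ) : ℤ := x 0 * a 1 - x 1 * a 0

/-- one of the products of two of the numbers is small. -/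
theorem two_small {m : ℕ} (hm : 2 ≤ m) (ρ : Fin m → ℝ) (hρ : ∀ l, 0 < ρ l) (R : ℝ)
    (h : ∏ l, ρ l ≤ R) : ∃ i j : Fin m, i ≠ j ∧ ρ i * ρ j ≤ R ^ (2 / (m : ℝ)) := by
  classical
  by_contra hcon
  push Not at hcon
  have hm0 : (0 : ℝ) < m := by exact_mod_cast (by omega : 0 < m)
  have hR : 0 < R := (prod_pos (fun l _ => hρ l)).trans_le h
  -- the product over the ordered pairs
  have h1 : ∏ i : Fin m, ∏ j ∈ univ.erase i, (ρ i * ρ j) = (∏ l, ρ l) ^ (2 * (m - 1)) := by
    have h2 : ∀ i : Fin m, ∏ j ∈ univ.erase i, (ρ i * ρ j) = ρ i ^ (m - 1) * ∏ j ∈ univ.erase i, ρ j := by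
      intro i
      rw [prod_mul_distrib, prod_const, card_erase_of_mem (mem_univ i), card_univ,
        Fintype.card_fin]
    have h3 : ∀ i : Fin m, ρ i ^ (m - 1) * ∏ j ∈ univ.erase i, ρ j =
        ρ i ^ (m - 1) * ((∏ l, ρ l) / ρ i) := by
      intro i
      congr 1
      rw [eq_div_iff (hρ i).ne', mul_comm]
      exact mul_prod_erase univ ρ (mem_univ i)
    simp_rw [h2, h3]
    rw [prod_mul_distrib, prod_pow, prod_div_distrib, prod_const, card_univ, Fintype.card_fin]
    have h4 : (∏ l, ρ l) ≠ 0 := (prod_pos (fun l _ => hρ l)).ne'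
    have h5 : (∏ l, ρ l) ^ m = (∏ l, ρ l) ^ (m - 1) * (∏ l, ρ l) := by
      rw [← pow_succ]
      congr 1
      omega
    rw [h5, mul_div_assoc, div_self h4, mul_one, ← pow_add]
    congr 1
    omega
  have h2 : ∏ i : Fin m, ∏ j ∈ univ.erase i, (R ^ (2 / (m : ℝ))) = R ^ (2 * (m - 1)) := by
    have h3 : ∀ i : Fin m, ∏ j ∈ univ.erase i, (R ^ (2 / (m : ℝ))) =
        (R ^ (2 / (m : ℝ))) ^ (m - 1) := by
      intro i
      rw [prod_const, card_erase_of_mem (mem_univ i), card_univ, Fintype.card_fin]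
    simp_rw [h3]
    rw [prod_const, card_univ, Fintype.card_fin, ← Real.rpow_natCast, ← Real.rpow_natCast,
      ← Real.rpow_natCast, ← Real.rpow_mul hR.le, ← Real.rpow_mul hR.le]
    congr 1
    push_cast [Nat.cast_sub (by omega : 1 ≤ m)]
    field_simp
  have h3 : ∏ i : Fin m, ∏ j ∈ univ.erase i, (R ^ (2 / (m : ℝ))) <
      ∏ i : Fin m, ∏ j ∈ univ.erase i, (ρ i * ρ j) := by
    have hne : (univ : Finset (Fin m)).Nonempty := ⟨⟨0, by omega⟩, mem_univ _⟩
    refine prod_lt_prod_of_nonempty (fun i _ => prod_pos (fun _ _ => by positivity))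
      (fun i _ => ?_) hne
    have hne2 : (univ.erase i : Finset (Fin m)).Nonempty := by
      rw [← card_pos, card_erase_of_mem (mem_univ i), card_univ, Fintype.card_fin]
      omega
    refine prod_lt_prod_of_nonempty (fun j _ => by positivity) (fun j hj => ?_) hne2
    exact hcon i j (ne_of_mem_erase hj).symm
  rw [h1, h2] at h3
  have h4 : (∏ l, ρ l) ^ (2 * (m - 1)) ≤ R ^ (2 * (m - 1)) :=
    pow_le_pow_left₀ (prod_nonneg (fun l _ => (hρ l).le)) h _
  exact absurd h3 (not_lt.2 h4)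

/-- pairs `g x`, for which the product of the prime to `S` radicals of the `lin (α l) x` is at
most `R / g ^ (m / 2 * (1 + η))`. -/
def Prs {m : ℕ} (S : Finset ℕ) (α : Fin m → Fin 2 → ℤ) (η R : ℝ) : Set (Fin 2 → ℤ) :=
  {v | ∃ (g : ℤ) (x : Fin 2 → ℤ), g ≠ 0 ∧ v 0 = g * x 0 ∧ v 1 = g * x 1 ∧
    (∀ l, lin (α l) x ≠ 0) ∧
    (∏ l, (rho S (lin (α l) x) : ℝ)) ≤ R * |(g : ℝ)| ^ (-((m : ℝ) / 2 * (1 + η)))}

/-- the pairs with two small radicals. -/
theorem card_two {m : ℕ} (hm : 2 ≤ m) (S : Finset ℕ) (α : Fin m → Fin 2 → ℤ)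
    (hα : ∀ i j, i ≠ j → lin (α i) (α j) ≠ 0) (η : ℝ) (hη : 0 < η) :
    ∃ C : ℝ, 0 < C ∧ ∀ (X : ℕ) (R : ℝ) (A : Finset (Fin 2 → ℤ)), 1 ≤ X → 0 < R →
      (∀ x ∈ A, (∀ i, |x i| ≤ X) ∧ (∀ l, lin (α l) x ≠ 0) ∧
        (∏ l, (rho S (lin (α l) x) : ℝ)) ≤ R) →
      (#A : ℝ) ≤ C * R ^ (2 / (m : ℝ)) * (X : ℝ) ^ (2 * η) := by
  classical
  obtain ⟨C, hC, htup⟩ := card_tup 2 S η hη
  -- the size of the linear forms
  set c : ℕ := ∑ l, ((α l 0).natAbs + (α l 1).natAbs) + 1 with hc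
  refine ⟨(m : ℝ) ^ 2 * (C * (c : ℝ) ^ (2 * η)), by
    have : (0 : ℝ) < m := by exact_mod_cast (by omega : 0 < m)
    positivity, fun X R A hX hR hA => ?_⟩
  have hsub : A ⊆ (univ : Finset (Fin m × Fin m)).biUnion (fun p => A.filter (fun x =>
      p.1 ≠ p.2 ∧ (rho S (lin (α p.1) x) : ℝ) * (rho S (lin (α p.2) x) : ℝ) ≤
        R ^ (2 / (m : ℝ)))) := by
    intro x hx
    obtain ⟨h1, h2, h3⟩ := hA x hx
    obtain ⟨i, j, hij, h4⟩ := two_small hm (fun l => (rho S (lin (α l) x) : ℝ))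
      (fun l => by exact_mod_cast rho_pos S _) R h3
    rw [mem_biUnion]
    exact ⟨(i, j), mem_univ _, mem_filter.2 ⟨hx, hij, h4⟩⟩
  have hone : ∀ p ∈ (univ : Finset (Fin m × Fin m)), (#(A.filter (fun x =>
      p.1 ≠ p.2 ∧ (rho S (lin (α p.1) x) : ℝ) * (rho S (lin (α p.2) x) : ℝ) ≤
        R ^ (2 / (m : ℝ)))) : ℝ) ≤ C * R ^ (2 / (m : ℝ)) * ((c : ℝ) ^ (2 * η) * (X : ℝ) ^ (2 * η)) := by
    rintro ⟨i, j⟩ -
    have h1 := htup (fun _ => c * X) (R ^ (2 / (m : ℝ))) (fun _ => Nat.mul_pos (by omega) hX)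
      (by positivity)
    have h2 : (((∏ _i : Fin 2, (c * X)) : ℕ) : ℝ) ^ η = (c : ℝ) ^ (2 * η) * (X : ℝ) ^ (2 * η) := by
      rw [prod_const, card_univ, Fintype.card_fin]
      push_cast
      rw [← Real.rpow_natCast, ← Real.rpow_mul (by positivity),
        Real.mul_rpow (by positivity) (by positivity)]
      push_cast
      rfl
    rw [h2] at h1
    refine le_trans ?_ h1
    have h3 : (A.filter (fun x => i ≠ j ∧ (rho S (lin (α i) x) : ℝ) *
        (rho S (lin (α j) x) : ℝ) ≤ R ^ (2 / (m : ℝ)))).image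
        (fun x => (![lin (α i) x, lin (α j) x] : Fin 2 → ℤ)) ⊆
        Tup S (fun _ : Fin 2 => c * X) (R ^ (2 / (m : ℝ))) := by
      intro v hv
      obtain ⟨x, hx, rfl⟩ := mem_image.1 hv
      rw [mem_filter] at hx
      obtain ⟨hxA, hij, hρ⟩ := hx
      obtain ⟨h4, h5, -⟩ := hA x hxA
      have hsize : ∀ l, |lin (α l) x| ≤ ((c * X : ℕ) : ℤ) := by
        intro l
        unfold lin
        have e0 := h4 0
        have e1 := h4 1
        have e2 : ((α l 0).natAbs + (α l 1).natAbs : ℕ) ≤ c := by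
          rw [hc]
          have := single_le_sum (f := fun l => (α l 0).natAbs + (α l 1).natAbs)
            (fun _ _ => Nat.zero_le _) (mem_univ l)
          omega
        have e3 : |α l 0| + |α l 1| ≤ (c : ℤ) := by
          rw [Int.abs_eq_natAbs, Int.abs_eq_natAbs]
          exact_mod_cast e2
        calc |x 0 * α l 1 - x 1 * α l 0| ≤ |x 0 * α l 1| + |x 1 * α l 0| := abs_sub _ _
          _ = |x 0| * |α l 1| + |x 1| * |α l 0| := by rw [abs_mul, abs_mul]
          _ ≤ X * |α l 1| + X * |α l 0| := by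
              refine add_le_add ?_ ?_
              · exact mul_le_mul_of_nonneg_right e0 (abs_nonneg _)
              · exact mul_le_mul_of_nonneg_right e1 (abs_nonneg _)
          _ = (|α l 0| + |α l 1|) * X := by ring
          _ ≤ c * X := mul_le_mul_of_nonneg_right e3 (by positivity)
          _ = _ := by push_cast; ring
      rw [Tup, mem_filter, Fintype.mem_piFinset]
      refine ⟨fun k => ?_, fun k => ?_, ?_⟩
      · rw [mem_Icc, ← abs_le]
        fin_cases k
        · exact hsize i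
        · exact hsize j
      · fin_cases k
        · exact h5 i
        · exact h5 j
      · rw [Fin.prod_univ_two]
        refine le_trans ?_ hρ
        have := rho_mul_le S (lin (α i) x) (lin (α j) x) (h5 i) (h5 j)
        exact_mod_cast this
    have h4 := card_le_card h3
    by_cases hij : i = j
    · have : A.filter (fun x => i ≠ j ∧ (rho S (lin (α i) x) : ℝ) *
        (rho S (lin (α j) x) : ℝ) ≤ R ^ (2 / (m : ℝ))) = ∅ := by
        rw [filter_eq_empty_iff]
        rintro x - ⟨h, -⟩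
        exact h hij
      rw [this, card_empty]
      exact_mod_cast Nat.zero_le _
    · rw [card_image_of_injOn] at h4
      · exact_mod_cast h4
      · intro x _ y _ hxy
        have e0 := congrFun hxy 0
        have e1 := congrFun hxy 1
        simp only [Matrix.cons_val_zero, Matrix.cons_val_one] at e0 e1
        unfold lin at e0 e1
        have hdet : α i 1 * α j 0 - α i 0 * α j 1 ≠ 0 := by
          have := hα i j hij
          unfold lin at this
          intro h
          apply this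
          linarith
        have f0 : (x 0 - y 0) * (α i 1 * α j 0 - α i 0 * α j 1) = 0 := by
          linear_combination α j 0 * e0 - α i 0 * e1
        have f1 : (x 1 - y 1) * (α i 1 * α j 0 - α i 0 * α j 1) = 0 := by
          linear_combination α j 1 * e0 - α i 1 * e1
        have g0 := (mul_eq_zero.1 f0).resolve_right hdet
        have g1 := (mul_eq_zero.1 f1).resolve_right hdet
        funext k
        fin_cases k
        · change x 0 = y 0; linarith
        · change x 1 = y 1; linarith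
  have h1 : (#A : ℝ) ≤ ∑ p : Fin m × Fin m, (#(A.filter (fun x =>
      p.1 ≠ p.2 ∧ (rho S (lin (α p.1) x) : ℝ) * (rho S (lin (α p.2) x) : ℝ) ≤
        R ^ (2 / (m : ℝ)))) : ℝ) := by
    exact_mod_cast (card_le_card hsub).trans card_biUnion_le
  refine h1.trans ((sum_le_sum hone).trans (le_of_eq ?_))
  rw [sum_const, card_univ, Fintype.card_prod, Fintype.card_fin, nsmul_eq_mul]
  push_cast
  ring

/-- the number of the pairs. -/
theorem card_prs {m : ℕ} (hm : 2 ≤ m) (S : Finset ℕ) (α : Fin m → Fin 2 → ℤ)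
    (hα : ∀ i j, i ≠ j → lin (α i) (α j) ≠ 0) (η : ℝ) (hη : 0 < η) :
    ∃ C : ℝ, 0 < C ∧ ∀ (X : Fin 2 → ℕ) (R : ℝ), 1 ≤ X 0 → X 1 = X 0 → 0 < R →
      (#(Vec X (Prs S α η R)) : ℝ) ≤ C * R ^ (2 / (m : ℝ)) * (X 0 : ℝ) ^ (2 * η) := by
  classical
  obtain ⟨C, hC, htwo⟩ := card_two hm S α hα η hη
  have hm0 : (0 : ℝ) < m := by exact_mod_cast (by omega : 0 < m)
  have hs : Summable (fun g : ℕ => (g : ℝ) ^ (-(1 + η))) :=
    Real.summable_nat_rpow.2 (by linarith)
  set S2 : ℝ := ∑' g : ℕ, (g : ℝ) ^ (-(1 + η)) with hS2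
  have hS20 : 0 ≤ S2 := tsum_nonneg (fun g => by positivity)
  refine ⟨C * (S2 + 1), by positivity, fun X R hX0 hX1 hR => ?_⟩
  -- the points for `g`
  let A : ℕ → Finset (Fin 2 → ℤ) := fun g =>
    (Fintype.piFinset (fun _ : Fin 2 => Icc (-(X 0 : ℤ)) (X 0))).filter
      (fun x => (∀ l, lin (α l) x ≠ 0) ∧
        (∏ l, (rho S (lin (α l) x) : ℝ)) ≤ R * (g : ℝ) ^ (-((m : ℝ) / 2 * (1 + η))))
  have hsub : Vec X (Prs S α η R) ⊆ (Icc 1 (X 0)).biUnion (fun g =>
      (A g).image (fun x : Fin 2 → ℤ => (fun k => (g : ℤ) * x k))) := by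
    intro v hv
    rw [mem_vec] at hv
    obtain ⟨hv1, g0, x0, hg0, hv0, hv1', hne, hrho⟩ := hv
    have hXk : ∀ k, |v k| ≤ X 0 := by
      intro k
      fin_cases k
      · exact hv1 0
      · have := hv1 1
        rw [hX1] at this
        exact this
    -- pass to `g > 0`
    obtain ⟨g, x, hg1, hv, hne', hrho'⟩ : ∃ (g : ℕ) (x : Fin 2 → ℤ), 1 ≤ g ∧
        (∀ k, v k = (g : ℤ) * x k) ∧ (∀ l, lin (α l) x ≠ 0) ∧
        (∏ l, (rho S (lin (α l) x) : ℝ)) ≤ R * (g : ℝ) ^ (-((m : ℝ) / 2 * (1 + η))) := by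
      rcases lt_or_gt_of_ne hg0 with h | h
      · refine ⟨g0.natAbs, fun k => -x0 k, by omega, fun k => ?_, fun l => ?_, ?_⟩
        · have e : ((g0.natAbs : ℕ) : ℤ) = -g0 := by omega
          rw [e]
          fin_cases k
          · change v 0 = -g0 * -x0 0
            rw [hv0]; ring
          · change v 1 = -g0 * -x0 1
            rw [hv1']; ring
        · intro h1
          apply hne l
          unfold lin at h1 ⊢
          linarith
        · have e1 : ∀ l, rho S (lin (α l) (fun k => -x0 k)) = rho S (lin (α l) x0) := by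
            intro l
            have : lin (α l) (fun k => -x0 k) = -lin (α l) x0 := by unfold lin; ring
            rw [this]
            unfold rho
            rw [Int.natAbs_neg]
          simp_rw [e1]
          have e2 : ((g0.natAbs : ℕ) : ℝ) = |(g0 : ℝ)| := by
            rw [Nat.cast_natAbs, Int.cast_abs]
          rw [e2]
          exact hrho
      · refine ⟨g0.natAbs, x0, by omega, fun k => ?_, hne, ?_⟩
        · have e : ((g0.natAbs : ℕ) : ℤ) = g0 := by omega
          rw [e]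
          fin_cases k
          · exact hv0
          · exact hv1'
        · have e2 : ((g0.natAbs : ℕ) : ℝ) = |(g0 : ℝ)| := by
            rw [Nat.cast_natAbs, Int.cast_abs]
          rw [e2]
          exact hrho
    have hgpos : (1 : ℤ) ≤ (g : ℤ) := by exact_mod_cast hg1
    have hxk : ∀ k, |x k| ≤ X 0 := by
      intro k
      have h1 := hXk k
      rw [hv k, abs_mul, abs_of_nonneg (by positivity : (0 : ℤ) ≤ (g : ℤ))] at h1
      have := abs_nonneg (x k)
      nlinarith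
    have hx0 : ∃ k, x k ≠ 0 := by
      by_contra hcon
      push Not at hcon
      apply hne' ⟨0, by omega⟩
      unfold lin
      rw [hcon 0, hcon 1]
      ring
    rw [mem_biUnion]
    refine ⟨g, ?_, ?_⟩
    · rw [mem_Icc]
      refine ⟨hg1, ?_⟩
      obtain ⟨k, hk⟩ := hx0
      have h1 := hXk k
      rw [hv k, abs_mul, abs_of_nonneg (by positivity : (0 : ℤ) ≤ (g : ℤ))] at h1
      have h2 : 1 ≤ |x k| := Int.one_le_abs hk
      have h3 : (g : ℤ) ≤ X 0 := by nlinarith
      exact_mod_cast h3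
    · rw [mem_image]
      refine ⟨x, ?_, ?_⟩
      · rw [mem_filter, Fintype.mem_piFinset]
        exact ⟨fun k => by rw [mem_Icc, ← abs_le]; exact hxk k, hne', hrho'⟩
      · funext k
        exact (hv k).symm
  have h1 : (#(Vec X (Prs S α η R)) : ℝ) ≤ ∑ g ∈ Icc 1 (X 0), (#(A g) : ℝ) := by
    have h2 := (card_le_card hsub).trans card_biUnion_le
    have h3 : ∑ g ∈ Icc 1 (X 0), #((A g).image (fun x : Fin 2 → ℤ => (fun k => (g : ℤ) * x k))) ≤
        ∑ g ∈ Icc 1 (X 0), #(A g) := sum_le_sum (fun g _ => card_image_le)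
    exact_mod_cast h2.trans h3
  have h2 : ∀ g ∈ Icc 1 (X 0), (#(A g) : ℝ) ≤
      C * R ^ (2 / (m : ℝ)) * (X 0 : ℝ) ^ (2 * η) * (g : ℝ) ^ (-(1 + η)) := by
    intro g hg
    rw [mem_Icc] at hg
    have hg0 : (0 : ℝ) < g := by exact_mod_cast hg.1
    have h3 := htwo (X 0) (R * (g : ℝ) ^ (-((m : ℝ) / 2 * (1 + η)))) (A g) hX0 (by positivity)
      (fun x hx => by
        rw [mem_filter, Fintype.mem_piFinset] at hx
        exact ⟨fun k => abs_le.2 (mem_Icc.1 (hx.1 k)), hx.2.1, hx.2.2⟩)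
    refine h3.trans (le_of_eq ?_)
    rw [Real.mul_rpow hR.le (by positivity), ← Real.rpow_mul hg0.le]
    have e1 : -((m : ℝ) / 2 * (1 + η)) * (2 / (m : ℝ)) = -(1 + η) := by
      field_simp
    rw [e1]
    ring
  refine h1.trans ((sum_le_sum h2).trans ?_)
  rw [← mul_sum]
  have h4 : ∑ g ∈ Icc 1 (X 0), (g : ℝ) ^ (-(1 + η)) ≤ S2 :=
    hs.sum_le_tsum _ (fun g _ => by positivity)
  have h5 : 0 ≤ C * R ^ (2 / (m : ℝ)) * (X 0 : ℝ) ^ (2 * η) := by positivity
  calc C * R ^ (2 / (m : ℝ)) * (X 0 : ℝ) ^ (2 * η) * ∑ g ∈ Icc 1 (X 0), (g : ℝ) ^ (-(1 + η))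
      ≤ C * R ^ (2 / (m : ℝ)) * (X 0 : ℝ) ^ (2 * η) * (S2 + 1) :=
        mul_le_mul_of_nonneg_left (by linarith) h5
    _ = _ := by ring

end Pool.Agent.Q256.VM
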