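import Mathlib
import Pool.Agent.Q256.VM.Cnt

set_option autoImplicit false

namespace Pool.Agent.Q256.VM

open Finset MvPolynomial
open Pool.Agent.Q256.CI Pool.Agent.Q256.VT Pool.Agent.Q256.VS Pool.Agent.Q256.VG
open Pool.Agent.H813R3.Voj (rho rho_pos)

/-- the logarithmic height of the point of the line with the coprime coordinates `x` -/
noncomputable def htx (x : Fin 2 → ℤ) : ℝ := Real.log ((max |x 0| |x 1| : ℤ) : ℝ)

/-- the truncated counting function of the point with the coprime coordinates `x`, relative to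
the points `α l` and the finite set `S` of primes: the sum over `l` and over the primes `p ∉ S`
at which `x` and `α l` coincide of `log p` -/
noncomputable def N1x {m : ℕ} (S : Finset ℕ) (α : Fin m → Fin 2 → ℤ) (x : Fin 2 → ℤ) : ℝ :=
  ∑ l, ∑ p ∈ (lin (α l) x).natAbs.primeFactors \ S, Real.log p

theorem N1x_eq {m : ℕ} (S : Finset ℕ) (α : Fin m → Fin 2 → ℤ) (x : Fin 2 → ℤ) :
    N1x S α x = Real.log (∏ l, (rho S (lin (α l) x) : ℝ)) := by
  unfold N1x
  rw [Real.log_prod (fun l _ => by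
    have := rho_pos S (lin (α l) x)
    have h2 : (0 : ℝ) < rho S (lin (α l) x) := by exact_mod_cast this
    exact h2.ne')]
  refine sum_congr rfl (fun l _ => ?_)
  unfold rho
  push_cast
  rw [Real.log_prod]
  intro p hp
  rw [mem_sdiff] at hp
  exact_mod_cast (Nat.prime_of_mem_primeFactors hp.1).ne_zero

/-- the systems `(G, (A, B))` for which the value `x = (A : B)` at some point of `𝒴` on `X`, cut
out by hyperplanes with coefficients at most `T`, is not one of the points `α l` and violates the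
inequality `N(x) ≥ m (1 - θ / 2) h(x) - c`. -/
def FailsMap {n s m : ℕ} (S : Finset ℕ) (α : Fin m → Fin 2 → ℤ) (e : Fin s → ℕ) (d : ℕ)
    (𝒴 : Set (Fin (n + 1) → ℤ)) (H T : ℕ) (θ c : ℝ) : Set (Sys n s 2) :=
  {P | InBox e ![d, d] H P ∧ ∃ y ∈ 𝒴, CutOut T (fun k => (y k : ℚ)) ∧
    (∀ j, eval y (P.1 j) = 0) ∧ ∃ (g : ℤ) (x : Fin 2 → ℤ), g ≠ 0 ∧ IsCoprime (x 0) (x 1) ∧
      (∀ i, eval y (P.2 i) = g * x i) ∧ (∀ l, lin (α l) x ≠ 0) ∧
      N1x S α x < m * (1 - θ / 2) * htx x - c}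

theorem failsMap {n s m : ℕ} (hm : 2 ≤ m) (S : Finset ℕ) (α : Fin m → Fin 2 → ℤ)
    (hα : ∀ i j, i ≠ j → lin (α i) (α j) ≠ 0) (e : Fin s → ℕ) (d : ℕ)
    (𝒴 : Set (Fin (n + 1) → ℤ)) (hprim : ∀ y ∈ 𝒴, Prim y) (w : (Fin (n + 1) → ℤ) → ℝ)
    (hw : Conv 𝒴 w) (γ c₁ : ℝ) (hγ : ∀ y ∈ 𝒴, w y ≤ γ * ht y + c₁) (θ : ℝ)
    (hθ1 : θ < 1) (hθ : γ - (∑ j, (e j : ℝ)) < θ * d) (ε : ℝ) (hε : 0 < ε) :
    ∃ C c : ℝ, ∀ (H T : ℕ), 1 ≤ T → H ≤ T →
      (Nat.card (FailsMap (n := n) S α e d 𝒴 H T θ c) : ℝ) ≤ C * (T : ℝ) ^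
        ((∑ j, ((n + e j).choose n : ℝ)) + 2 * ((n + d).choose n : ℝ) - (s + θ) + ε) := by
  classical
  have hm0 : (0 : ℝ) < m := by exact_mod_cast (by omega : 0 < m)
  set ε1 : ℝ := θ * d - (γ - (∑ j, (e j : ℝ))) with hε1
  have hε10 : 0 < ε1 := by rw [hε1]; linarith
  set η : ℝ := min (1 - θ) (min (ε / 2) (ε1 / (4 * (d + 1)))) with hη
  have hd0 : (0 : ℝ) ≤ d := Nat.cast_nonneg d
  have hη0 : 0 < η := lt_min (by linarith) (lt_min (by positivity) (by positivity))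
  have hη1 : η ≤ 1 - θ := min_le_left _ _
  have hη2 : 2 * η ≤ ε := by
    have : η ≤ ε / 2 := (min_le_right _ _).trans (min_le_left _ _)
    linarith
  have hη3 : 2 * η * d ≤ ε1 / 2 := by
    have h1 : η ≤ ε1 / (4 * (d + 1)) := (min_le_right _ _).trans (min_le_right _ _)
    have h2 : 2 * η * d ≤ 2 * (ε1 / (4 * (d + 1))) * d := by
      refine mul_le_mul_of_nonneg_right ?_ hd0
      linarith
    refine h2.trans ?_
    rw [mul_div_assoc', div_mul_eq_mul_div, div_le_div_iff₀ (by positivity) (by norm_num)]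
    nlinarith
  obtain ⟨C1, hC1, hmain⟩ := main_countV (n := n) (s := s) (r := 2) e ![d, d] 𝒴 hprim w hw
    (ε1 / 2) (by positivity)
  obtain ⟨C2, hC2, hprs⟩ := card_prs hm S α hα η hη0
  set c0 : ℕ := (n + d).choose n with hc0
  have hc0' : 1 ≤ c0 := Nat.choose_pos (Nat.le_add_right _ _)
  have hc0r : (1 : ℝ) ≤ c0 := by exact_mod_cast hc0'
  have hlogc0 : 0 ≤ Real.log c0 := Real.log_nonneg hc0r
  refine ⟨C1 * (C2 * (c0 : ℝ) ^ (2 * η)), (m : ℝ) / 2 * ((2 - θ) * Real.log c0 + c₁),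
    fun H T hT hHT => ?_⟩
  have hTr : (1 : ℝ) ≤ T := by exact_mod_cast hT
  have hT0 : (0 : ℝ) < T := by linarith
  have hlogT : 0 ≤ Real.log T := Real.log_nonneg hTr
  set R : (Fin (n + 1) → ℤ) → ℝ := fun y =>
    Real.exp ((m : ℝ) / 2 * ((2 - θ) * Real.log T + ((∑ j, (e j : ℝ)) + 2 * d - ε1) * ht y - w y))
    with hR
  set lam : ℝ := C2 * (c0 : ℝ) ^ (2 * η) * (T : ℝ) ^ (2 - θ + 2 * η) with hlam
  have hlam0 : 0 ≤ lam := by positivity
  have h1 := hmain lam H T (fun y => Prs S α η (R y)) hlam0 hT hHT (by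
    intro y hy
    have hq1 : 1 ≤ qq y := qq_pos y (hprim y hy).ne
    have hq1r : (1 : ℝ) ≤ ((qq y : ℕ) : ℝ) := by exact_mod_cast hq1
    have hq0 : (0 : ℝ) < ((qq y : ℕ) : ℝ) := by linarith
    have e0 : siz n ![d, d] T (qq y) 0 = c0 * (T * qq y ^ d) := rfl
    have e1 : siz n ![d, d] T (qq y) 1 = siz n ![d, d] T (qq y) 0 := rfl
    have hX0 : 1 ≤ siz n ![d, d] T (qq y) 0 := by
      rw [e0]
      exact Nat.one_le_iff_ne_zero.2 (by positivity)
    refine (hprs _ (R y) hX0 e1 (Real.exp_pos _)).trans ?_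
    have f1 : (R y) ^ (2 / (m : ℝ)) = (T : ℝ) ^ (2 - θ) *
        (((qq y : ℕ) : ℝ) ^ ((∑ j, (e j : ℝ)) + 2 * d - ε1) * Real.exp (-w y)) := by
      rw [hR]
      dsimp only
      rw [← Real.exp_mul, Real.rpow_def_of_pos hT0, Real.rpow_def_of_pos hq0, ← Real.exp_add,
        ← Real.exp_add]
      congr 1
      unfold ht
      field_simp
      ring
    have f2 : ((siz n ![d, d] T (qq y) 0 : ℕ) : ℝ) ^ (2 * η) =
        (c0 : ℝ) ^ (2 * η) * ((T : ℝ) ^ (2 * η) * ((qq y : ℕ) : ℝ) ^ (2 * η * d)) := by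
      rw [e0]
      push_cast
      rw [Real.mul_rpow (by positivity) (by positivity),
        Real.mul_rpow (by positivity) (by positivity), ← Real.rpow_natCast ((qq y : ℕ) : ℝ) d,
        ← Real.rpow_mul hq0.le, mul_comm (d : ℝ) (2 * η)]
    rw [f1, f2, hlam]
    have f3 : (T : ℝ) ^ (2 - θ + 2 * η) = (T : ℝ) ^ (2 - θ) * (T : ℝ) ^ (2 * η) :=
      Real.rpow_add hT0 _ _
    have f4 : ((qq y : ℕ) : ℝ) ^ ((∑ j, (e j : ℝ)) + 2 * d - ε1) *
        ((qq y : ℕ) : ℝ) ^ (2 * η * d) ≤ ((qq y : ℕ) : ℝ) ^ ((∑ j, (e j : ℝ)) +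
          (∑ i, ((![d, d] : Fin 2 → ℕ) i : ℝ)) - ε1 / 2) := by
      rw [← Real.rpow_add hq0, Fin.sum_univ_two]
      refine Real.rpow_le_rpow_of_exponent_le hq1r ?_
      simp only [Matrix.cons_val_zero, Matrix.cons_val_one]
      linarith
    rw [f3]
    calc C2 * ((T : ℝ) ^ (2 - θ) * (((qq y : ℕ) : ℝ) ^ ((∑ j, (e j : ℝ)) + 2 * d - ε1) *
          Real.exp (-w y))) * ((c0 : ℝ) ^ (2 * η) * ((T : ℝ) ^ (2 * η) *
            ((qq y : ℕ) : ℝ) ^ (2 * η * d)))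
        = (C2 * (c0 : ℝ) ^ (2 * η) * ((T : ℝ) ^ (2 - θ) * (T : ℝ) ^ (2 * η))) *
          ((((qq y : ℕ) : ℝ) ^ ((∑ j, (e j : ℝ)) + 2 * d - ε1) *
            ((qq y : ℕ) : ℝ) ^ (2 * η * d)) * Real.exp (-w y)) := by ring
      _ ≤ _ := by
          refine mul_le_mul_of_nonneg_left ?_ (by positivity)
          exact mul_le_mul_of_nonneg_right f4 (Real.exp_pos _).le)
  refine (card_le_of_sub ?_ ((inBox_finite e ![d, d] H).subset
    (fun _ hP => hP.1))).trans (h1.trans ?_)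
  · rintro P ⟨hbox, y, hy, hcut, hz, g, x, hg, hcop, hv, hne, hlt⟩
    refine ⟨hbox, y, hy, hcut, hz, g, x, hg, hv 0, hv 1, hne, ?_⟩
    have hy0 := (hprim y hy).ne
    have hq1 : (1 : ℝ) ≤ ((qq y : ℕ) : ℝ) := by exact_mod_cast qq_pos y hy0
    have hq0 : (0 : ℝ) < ((qq y : ℕ) : ℝ) := by linarith
    have hht : 0 ≤ ht y := Real.log_nonneg hq1
    have hg1 : (1 : ℝ) ≤ |(g : ℝ)| := by exact_mod_cast Int.one_le_abs hg
    have hg0 : (0 : ℝ) < |(g : ℝ)| := by linarith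
    have hG : 0 ≤ Real.log |(g : ℝ)| := Real.log_nonneg hg1
    -- the size of `x`
    have hmax1 : (1 : ℤ) ≤ max |x 0| |x 1| := by
      rcases eq_or_ne (x 0) 0 with h | h
      · have h2 : x 1 ≠ 0 := by
          intro h3
          rw [h, h3] at hcop
          exact absurd (isCoprime_zero_left.1 hcop) (by simp)
        exact le_max_of_le_right (Int.one_le_abs h2)
      · exact le_max_of_le_left (Int.one_le_abs h)
    have hbox' : ∀ i, P.2 i ∈ Box n ((![d, d] : Fin 2 → ℕ) i) T := fun i =>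
      ⟨(hbox.2 i).1, fun β => ((hbox.2 i).2 β).trans (by exact_mod_cast hHT)⟩
    have hsz : ∀ i : Fin 2, |g| * |x i| ≤ (c0 : ℤ) * (T * (qq y : ℤ) ^ d) := by
      intro i
      rw [← abs_mul, ← hv i]
      have h2 := size (P.2 i) (hbox' i) y (qq y : ℕ) (by positivity) (le_qq y)
      have h3 : (![d, d] : Fin 2 → ℕ) i = d := by fin_cases i <;> rfl
      rw [h3] at h2
      rw [hc0]
      exact_mod_cast h2
    have hsz2 : |g| * max |x 0| |x 1| ≤ (c0 : ℤ) * (T * (qq y : ℤ) ^ d) := by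
      rcases max_choice |x 0| |x 1| with h | h
      · rw [h]; exact hsz 0
      · rw [h]; exact hsz 1
    have hsz3 : |(g : ℝ)| * ((max |x 0| |x 1| : ℤ) : ℝ) ≤
        (c0 : ℝ) * (T * ((qq y : ℕ) : ℝ) ^ d) := by exact_mod_cast hsz2
    have hmaxr : (0 : ℝ) < ((max |x 0| |x 1| : ℤ) : ℝ) := by
      have : (1 : ℝ) ≤ ((max |x 0| |x 1| : ℤ) : ℝ) := by exact_mod_cast hmax1
      linarith
    have hlog : Real.log |(g : ℝ)| + htx x ≤ Real.log c0 + (Real.log T + d * ht y) := by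
      unfold htx ht
      rw [← Real.log_mul hg0.ne' hmaxr.ne', ← Real.log_pow, ← Real.log_mul hT0.ne' (by positivity),
        ← Real.log_mul (by positivity) (by positivity)]
      exact Real.log_le_log (by positivity) hsz3
    have hprodpos : 0 < ∏ l, (rho S (lin (α l) x) : ℝ) :=
      prod_pos (fun l _ => by exact_mod_cast rho_pos S _)
    rw [N1x_eq] at hlt
    rw [← Real.exp_log hprodpos]
    have e1 : R y * |(g : ℝ)| ^ (-((m : ℝ) / 2 * (1 + η))) = Real.exp ((m : ℝ) / 2 *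
        ((2 - θ) * Real.log T + ((∑ j, (e j : ℝ)) + 2 * d - ε1) * ht y - w y -
          (1 + η) * Real.log |(g : ℝ)|)) := by
      rw [hR]
      dsimp only
      rw [Real.rpow_def_of_pos hg0, ← Real.exp_add]
      congr 1
      ring
    rw [e1, Real.exp_le_exp]
    refine hlt.le.trans ?_
    have hw1 := hγ y hy
    have h2 : (2 - θ) * htx x ≤ (2 - θ) * (Real.log c0 + (Real.log T + d * ht y) -
        Real.log |(g : ℝ)|) := mul_le_mul_of_nonneg_left (by linarith) (by linarith)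
    have h3 : (1 + η) * Real.log |(g : ℝ)| ≤ (2 - θ) * Real.log |(g : ℝ)| :=
      mul_le_mul_of_nonneg_right (by linarith) hG
    have h4 : ((∑ j, (e j : ℝ)) + 2 * d - ε1) * ht y = (2 - θ) * (d * ht y) + γ * ht y := by
      rw [hε1]; ring
    have h5 : (2 - θ) * htx x - ((2 - θ) * Real.log c0 + c₁) ≤
        (2 - θ) * Real.log T + ((∑ j, (e j : ℝ)) + 2 * d - ε1) * ht y - w y -
          (1 + η) * Real.log |(g : ℝ)| := by
      rw [h4]
      nlinarith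
    have h6 := mul_le_mul_of_nonneg_left h5 (by positivity : (0 : ℝ) ≤ (m : ℝ) / 2)
    refine le_trans (le_of_eq ?_) h6
    ring
  · rw [hlam, Fin.sum_univ_two]
    simp only [Matrix.cons_val_zero, Matrix.cons_val_one]
    have h2 : (T : ℝ) ^ (2 - θ + 2 * η) * (T : ℝ) ^
        ((∑ j, ((n + e j).choose n : ℝ)) + (((c0 : ℕ) : ℝ) + ((c0 : ℕ) : ℝ)) - (s + (2 : ℕ))) ≤
        (T : ℝ) ^ ((∑ j, ((n + e j).choose n : ℝ)) + 2 * (c0 : ℝ) - (s + θ) + ε) := by
      rw [← Real.rpow_add hT0]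
      refine Real.rpow_le_rpow_of_exponent_le hTr ?_
      push_cast
      linarith
    calc C1 * (C2 * (c0 : ℝ) ^ (2 * η) * (T : ℝ) ^ (2 - θ + 2 * η)) *
          (T : ℝ) ^ ((∑ j, ((n + e j).choose n : ℝ)) + (((c0 : ℕ) : ℝ) + ((c0 : ℕ) : ℝ)) -
            (s + (2 : ℕ)))
        = C1 * (C2 * (c0 : ℝ) ^ (2 * η)) * ((T : ℝ) ^ (2 - θ + 2 * η) *
          (T : ℝ) ^ ((∑ j, ((n + e j).choose n : ℝ)) + (((c0 : ℕ) : ℝ) + ((c0 : ℕ) : ℝ)) -
            (s + (2 : ℕ)))) := by ring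
      _ ≤ _ := mul_le_mul_of_nonneg_left h2 (by positivity)

end Pool.Agent.Q256.VM
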